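import Pool.Agent.ANO5.Hyp.Skew

/-!
# ANO5, module Tor: the matrix of a model of an Anosov map is invertible (package TOR-HOMEO)

`isUnit_det`.  PROOF.  Let `v ∈ ℤ^k` and let `a' ∈ Deck` be the translation `dkT 1 1 v`
(`exists_dkT`).  By `hA.2.2.2.1` there is a deck transformation `a` with `T ∘ a = a' ∘ T`.
`Homotopic` gives `b` with `skew S A τ ∘ a = b ∘ skew S A τ`, `T ∘ a = b ∘ T`; `b = a'` since `T` is
surjective.  Let `a = dkT γ δ u` (`Hyp.isDeck_iff`).  The components of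
`skew S A τ (a x) = a' (skew S A τ x)`: `(S i).f (γ i • x.1 i) = (S i).f (x.1 i)`, so
`γ i • z = z` for all `z`; `δ x.2.1 = x.2.1` for all `x`;
`A (t + u) + τ (γ z, δ y) = A t + τ (z, y) + v`, so `A u = v` over `ℝ`, hence over `ℤ`
(`Hyp.skew_eq`, `lin_int`).  So `A.mulVec` is surjective on `ℤ^k`, and `A` is a unit
(`Matrix.mulVec_surjective_iff_isUnit`, `Matrix.isUnit_iff_isUnit_det`).

`skewHomeo`: the inverse is `(z, y, t) ↦ (f_i⁻¹ z_i, y, A⁻¹ (t - τ (f⁻¹ z, y)))`; `A⁻¹` is the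
integer inverse (`Matrix.nonsing_inv`, `Matrix.mul_nonsing_inv`, `lin_mul`, `lin_one`).  Continuity:
`Hyp.continuous_sk` for both.
-/

set_option autoImplicit false

open Set Filter Topology
open scoped UpperHalfPlane MatrixGroups

namespace Pool.Agent.ANO5.Tor

open Pool.Agent.ANO5.A1 Pool.Agent.ANO5.A2 Pool.Agent.ANO5.A3.Grp Pool.Agent.ANO5.Hyp

variable [TFib] {r : ℕ} {S : Fin r → SurfaceMap} {A : Matrix (Fin TFib.k) (Fin TFib.k) ℤ}
  {τ : B r → Fin TFib.k → ℝ}

theorem isUnit_det {T : X r ≃ₜ X r} (hA : IsAnosovLift (surf S) T)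
    (hom : Homotopic (surf S) (skew S A τ) T) : IsUnit A.det := by
  rw [← Matrix.isUnit_iff_isUnit_det, ← Matrix.mulVec_surjective_iff_isUnit]
  intro v
  have hb : IsDeck (surf S) (dkT (r := r) 1 1 v) :=
    isDeck_iff.2 ⟨1, 1, v, fun i => (S i).Γ.one_mem, TFib.base.Γ.one_mem, rfl⟩
  obtain ⟨a, ha, hTa⟩ := hA.2.2.2.1 _ hb
  obtain ⟨b, -, h1, h2⟩ := hom a ha
  have hbe : b = dkT (r := r) 1 1 v := by
    funext x
    have h3 := congrFun (h2.symm.trans hTa) (T.symm x)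
    simpa only [Function.comp_apply, Homeomorph.apply_symm_apply] using h3
  subst hbe
  obtain ⟨γ, δ, u, -, -, rfl⟩ := isDeck_iff.1 ha
  refine ⟨u, ?_⟩
  rw [skew_eq] at h1
  have h4 : ∀ x : X r, sk (fun i => (S i).f) id A τ (dkT γ δ u x) =
      dkT 1 1 v (sk (fun i => (S i).f) id A τ x) := fun x => congrFun h1 x
  obtain ⟨y⟩ : Nonempty TFib.base.W := ⟨TFib.base.crd.symm 0⟩
  let x : X r := ((fun _ => UpperHalfPlane.I), (y, 0))
  have hγ : (fun i => γ i • x.1 i) = x.1 := by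
    funext i
    have h5 : (S i).f (γ i • x.1 i) = (1 : SL(2, ℝ)) • (S i).f (x.1 i) :=
      congrFun (congrArg Prod.fst (h4 x)) i
    rw [one_smul] at h5
    exact (S i).f.injective h5
  have hδ : δ y = y := congrArg (fun x : X r => x.2.1) (h4 x)
  have h6 : Lin.lin A (fun j => x.2.2 j + (u j : ℝ)) + τ (fun i => γ i • x.1 i, δ y) =
      fun j => (Lin.lin A x.2.2 + τ (x.1, y)) j + (v j : ℝ) :=
    congrArg (fun x : X r => x.2.2) (h4 x)
  rw [hγ, hδ] at h6
  have h7 : (fun j => x.2.2 j + (u j : ℝ)) = fun j => (u j : ℝ) := funext fun j => zero_add _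
  have h8 : Lin.lin A x.2.2 = 0 := map_zero (Lin.lin A)
  rw [h7, h8, zero_add, Lin.lin_int] at h6
  funext j
  have h9 := congrFun h6 j
  simp only [Pi.add_apply] at h9
  have h10 : ((A.mulVec u j : ℤ) : ℝ) = (v j : ℝ) := by linarith
  exact_mod_cast h10

/-- The model is a homeomorphism. -/
theorem exists_homeo (hA : IsUnit A.det) (hτ : Continuous τ) :
    ∃ T₀ : X r ≃ₜ X r, (T₀ : X r → X r) = skew S A τ := by
  let g : Fin r → ℍ → ℍ := fun i => (S i).f.symm
  let σ : (Fin r → ℍ) × TFib.base.W → (Fin TFib.k → ℝ) :=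
    fun q => -Lin.lin A⁻¹ (τ (fun i => g i (q.1 i), q.2))
  have hσ : Continuous σ := by
    refine ((Lin.lin A⁻¹).continuous.comp (hτ.comp ?_)).neg
    exact (continuous_pi fun i => (S i).f.symm.continuous.comp
      ((continuous_apply i).comp continuous_fst)).prodMk continuous_snd
  have hl : ∀ x : X r, sk g id A⁻¹ σ (skew S A τ x) = x := by
    intro x
    rw [skew_eq]
    refine Prod.ext (funext fun i => (S i).f.symm_apply_apply _) (Prod.ext rfl ?_)
    have hg : (fun i => g i ((S i).f (x.1 i))) = x.1 :=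
      funext fun i => (S i).f.symm_apply_apply _
    show Lin.lin A⁻¹ (Lin.lin A x.2.2 + τ (x.1, x.2.1)) +
      -Lin.lin A⁻¹ (τ (fun i => g i ((S i).f (x.1 i)), x.2.1)) = x.2.2
    rw [hg, map_add, add_neg_cancel_right, ← ContinuousLinearMap.comp_apply, ← Lin.lin_mul,
      Matrix.nonsing_inv_mul A hA, Lin.lin_one]
    rfl
  have hr : ∀ x : X r, skew S A τ (sk g id A⁻¹ σ x) = x := by
    intro x
    rw [skew_eq]
    refine Prod.ext (funext fun i => (S i).f.apply_symm_apply _) (Prod.ext rfl ?_)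
    show Lin.lin A (Lin.lin A⁻¹ x.2.2 + -Lin.lin A⁻¹ (τ (fun i => g i (x.1 i), x.2.1))) +
      τ (fun i => g i (x.1 i), x.2.1) = x.2.2
    rw [← sub_eq_add_neg, ← map_sub, ← ContinuousLinearMap.comp_apply, ← Lin.lin_mul,
      Matrix.mul_nonsing_inv A hA, Lin.lin_one, ContinuousLinearMap.id_apply, sub_add_cancel]
  refine ⟨⟨⟨skew S A τ, sk g id A⁻¹ σ, hl, hr⟩, ?_, ?_⟩, rfl⟩
  · show Continuous (skew S A τ)
    rw [skew_eq]
    exact continuous_sk (fun i => (S i).f.continuous) continuous_id hτ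
  · exact continuous_sk (fun i => (S i).f.symm.continuous) continuous_id hσ

end Pool.Agent.ANO5.Tor
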