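import Pool.Agent.ANO5.Prod
import Pool.Agent.ANO5.A2.Defs

/-!
# ANO5: manifolds with a torus factor

`TFib` (a class without parameters): the data of `N × T^k`, `W = base.W × ℝ^k`.  `skew S A τ` is
the model map `(z, y, t) ↦ (f_i z_i, y, A t + τ (z, y))` of `ℍ^r × base.W × ℝ^k`.
-/

set_option autoImplicit false

open scoped UpperHalfPlane MatrixGroups
open Set Filter Topology Matrix

namespace Pool.Agent.ANO5

/-- A fibre `N × T^k` (a class without parameters). -/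
class TFib where
  base : Fib
  k : ℕ

noncomputable instance TFib.toFib [TFib] : Fib := @prodTorus TFib.base TFib.k

end Pool.Agent.ANO5

namespace Pool.Agent.ANO5.Tor

open Pool.Agent.ANO5.A1 Pool.Agent.ANO5.A2

variable [TFib] {r : ℕ}

/-- The base `ℍ^r × base.W` of the torus bundle. -/
abbrev B (r : ℕ) : Type := (Fin r → ℍ) × TFib.base.W

/-- The linear map of `ℝ^k`. -/
noncomputable def lin (A : Matrix (Fin TFib.k) (Fin TFib.k) ℤ) (t : Fin TFib.k → ℝ) :
    Fin TFib.k → ℝ := A.map (Int.cast : ℤ → ℝ) *ᵥ t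

/-- The model map. -/
noncomputable def skew (S : Fin r → SurfaceMap) (A : Matrix (Fin TFib.k) (Fin TFib.k) ℤ)
    (τ : B r → Fin TFib.k → ℝ) (x : X r) : X r :=
  (fun i => (S i).f (x.1 i), (x.2.1, lin A x.2.2 + τ (x.1, x.2.1)))

/-- `τ` is continuous and descends to a map of `S₁ × ⋯ × S_r × N` to the torus. -/
structure IsTwist (S : Fin r → ClosedSurface) (τ : B r → Fin TFib.k → ℝ) : Prop where
  cont : Continuous τ
  equivar : ∀ γ : Fin r → SL(2, ℝ), (∀ i, γ i ∈ (S i).Γ) → ∀ δ ∈ TFib.base.Γ,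
    ∃ c : Fin TFib.k → ℤ, ∀ (z : Fin r → ℍ) (y : TFib.base.W),
      τ (fun i => γ i • z i, δ y) = τ (z, y) + fun j => (c j : ℝ)

theorem mem_Γ {g : Equiv.Perm (TFib.base.W × (Fin TFib.k → ℝ))} : g ∈ Fib.Γ ↔
    ∃ δ ∈ TFib.base.Γ, ∃ v : Fin TFib.k → ℤ, ∀ p, g p = (δ p.1, fun j => p.2 j + v j) := Iff.rfl

end Pool.Agent.ANO5.Tor
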